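import Pool.Agent.helper36.UT.Spec

set_option autoImplicit false

open Filter Polynomial FirstOrder FirstOrder.Language

namespace Pool.Agent.UnivT

theorem CSF_nat (a : ℤ) (k : ℕ) (h : a ∣ 2 ^ (2 ^ k) + 1) : a.natAbs ∣ Nat.fermatNumber k := by
  have h1 : ((2 : ℤ) ^ (2 ^ k) + 1) = ((Nat.fermatNumber k : ℕ) : ℤ) := by
    unfold Nat.fermatNumber
    push_cast
    rfl
  rw [h1] at h
  exact Int.natAbs_dvd_natAbs.2 h

theorem CSF : CSF_stmt := by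
  intro a n hn h
  obtain ⟨H₁, hH₁⟩ := h.exists
  have h2 : ∀ᶠ H : ℕ in atTop, (((n H₁).toNat : ℤ) + 1) ≤ n H := hn.eventually_ge_atTop _
  obtain ⟨H₂, hH₂, hgt⟩ := (h.and h2).exists
  have hne : (n H₁).toNat ≠ (n H₂).toNat := by omega
  have h3 := Nat.coprime_fermatNumber_fermatNumber hne
  have h4 := Nat.dvd_gcd (CSF_nat a _ hH₁) (CSF_nat a _ hH₂)
  have h5 : a.natAbs ∣ 1 := by
    rcases Nat.dvd_one.1 (h3 ▸ h4 : a.natAbs ∣ 1) with h6
    rw [h6]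
  have h6 := Nat.dvd_one.1 h5
  rw [Int.abs_eq_natAbs, h6]
  rfl

end Pool.Agent.UnivT
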