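import Pool.Agent.helper36.UT.Spec

set_option autoImplicit false

open Filter Polynomial FirstOrder FirstOrder.Language

namespace Pool.Agent.UnivT

theorem DOM_one (x y : ℚ × (ℕ → ℤ)) (h : Far x y) (ε : ℚ) (hε : 0 < ε) :
    ∀ᶠ H : ℕ in atTop, |y.1 * (2 : ℚ) ^ (y.2 H)| ≤ ε * (2 : ℚ) ^ (x.2 H) := by
  obtain ⟨N, hN⟩ := pow_unbounded_of_one_lt (|y.1| / ε) (by norm_num : (1 : ℚ) < 2)
  have h1 : ∀ᶠ H : ℕ in atTop, (N : ℤ) ≤ x.2 H - y.2 H := h.eventually_ge_atTop _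
  filter_upwards [h1] with H hH
  have h2 : (2 : ℚ) ^ (x.2 H) = (2 : ℚ) ^ (y.2 H) * (2 : ℚ) ^ (x.2 H - y.2 H) := by
    rw [← zpow_add₀ (by norm_num : (2 : ℚ) ≠ 0)]
    congr 1
    ring
  have h3 : (2 : ℚ) ^ N ≤ (2 : ℚ) ^ (x.2 H - y.2 H) := by
    rw [← zpow_natCast]
    exact zpow_le_zpow_right₀ (by norm_num) hH
  have h4 : 0 < (2 : ℚ) ^ (y.2 H) := zpow_pos (by norm_num) _
  rw [abs_mul, abs_of_pos h4, h2]
  have h5 : |y.1| ≤ ε * (2 : ℚ) ^ (x.2 H - y.2 H) := by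
    rw [div_lt_iff₀ hε] at hN
    nlinarith
  nlinarith

theorem DOM : DOM_stmt := by
  intro x l
  induction l with
  | nil =>
    intro _ ε hε
    refine Filter.Eventually.of_forall fun H => ?_
    rw [ev_nil, abs_zero]
    have : 0 < (2 : ℚ) ^ (x.2 H) := zpow_pos (by norm_num) _
    positivity
  | cons y m ih =>
    intro hl ε hε
    have h1 := DOM_one x y (hl y (List.mem_cons_self)) (ε / 2) (by positivity)
    have h2 := ih (fun z hz => hl z (List.mem_cons_of_mem _ hz)) (ε / 2) (by positivity)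
    filter_upwards [h1, h2] with H hH1 hH2
    rw [ev_cons]
    refine (abs_add_le _ _).trans ?_
    linarith

end Pool.Agent.UnivT
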