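import Pool.Agent.helper36.UT.Spec

set_option autoImplicit false

open Filter Polynomial FirstOrder FirstOrder.Language

namespace Pool.Agent.UnivT

theorem BWS_one (β : Bool → Bool → Bool) (m n : ℤ) :
    Int.bitwise β m n = (if β (m.testBit 0) (n.testBit 0) then 1 else 0) + 2 * Int.bitwise β (m / 2) (n / 2) := by
  have h1 := Int.bitwise_bit β (Int.bodd m) (Int.div2 m) (Int.bodd n) (Int.div2 n)
  rw [Int.bit_decomp, Int.bit_decomp, Int.bit_val, Int.div2_val, Int.div2_val] at h1
  have h2 : ∀ k : ℤ, k.testBit 0 = Int.bodd k := by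
    intro k
    have h3 := Int.testBit_bit_zero (Int.bodd k) (Int.div2 k)
    rwa [Int.bit_decomp] at h3
  rw [h1, h2, h2]
  cases β (Int.bodd m) (Int.bodd n) <;> simp [add_comm]

theorem BWS_shift (m : ℤ) (L : ℕ) : (m / 2 ^ L).testBit 0 = m.testBit L := by
  induction L generalizing m with
  | zero => simp
  | succ L ih =>
    have h1 : m / 2 ^ (L + 1) = (m / 2) / 2 ^ L := by
      rw [pow_succ', Int.ediv_ediv_of_nonneg (by norm_num)]
    rw [h1, ih]
    have h3 := Int.testBit_bit_succ L (Int.bodd m) (Int.div2 m)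
    rw [Int.bit_decomp, Int.div2_val] at h3
    exact h3.symm

theorem BWS : BWS_stmt := by
  intro β m n L
  induction L with
  | zero => simp [val]
  | succ L ih =>
    have h1 : val (fun i => β (m.testBit i) (n.testBit i)) (L + 1) =
        val (fun i => β (m.testBit i) (n.testBit i)) L +
          (if β (m.testBit L) (n.testBit L) then 2 ^ L else 0) := by
      unfold val
      rw [Finset.sum_range_succ]
    have h2 := BWS_one β (m / 2 ^ L) (n / 2 ^ L)
    rw [BWS_shift, BWS_shift] at h2
    have h3 : ∀ k : ℤ, k / 2 ^ L / 2 = k / 2 ^ (L + 1) := by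
      intro k
      rw [pow_succ, Int.ediv_ediv_of_nonneg (by positivity)]
    rw [h3, h3] at h2
    rw [h1, ih, h2]
    by_cases h4 : β (m.testBit L) (n.testBit L) = true
    · rw [if_pos h4, if_pos h4]
      ring
    · rw [if_neg h4, if_neg h4]
      ring

end Pool.Agent.UnivT
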